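import Pool.Agent.TH983.Fin
import Pool.Agent.Helper764.Cop_fe

/-!
# Copolymer at a selective interface: the slope lies strictly above the integral criterion

-/

set_option autoImplicit false
open MeasureTheory ProbabilityTheory Filter Topology

namespace Pool.Agent.Results.MP_3d9a2b_pr.AboveIntegralLevel

/-- law of one (gap, sign) pair: gap with law `κ`, sign uniform on `{false, true}` -/
noncomputable def stepLaw (κ : PMF ℕ) : Measure (ℕ × Bool) :=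
  κ.toMeasure.prod (PMF.uniformOfFintype Bool).toMeasure

instance instStepLaw (κ : PMF ℕ) : IsProbabilityMeasure (stepLaw κ) := by
  unfold stepLaw; infer_instance

/-- law of the i.i.d. sequence of (gap, sign) pairs -/
noncomputable def pathMeasure (κ : PMF ℕ) : Measure (ℕ → ℕ × Bool) :=
  Measure.infinitePi (fun _ : ℕ => stepLaw κ)

instance instPathMeasure (κ : PMF ℕ) : IsProbabilityMeasure (pathMeasure κ) := by
  unfold pathMeasure; infer_instance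

/-- renewal points `τ_0 = 0`, `τ_j` = sum of the first `j` gaps -/
def tau (x : ℕ → ℕ × Bool) (j : ℕ) : ℕ := ∑ i ∈ Finset.range j, (x i).1

/-- `Δ_n` = sign of the excursion `(τ_j, τ_{j+1}]` containing `n` (as a real number 0 or 1) -/
noncomputable def Delta (x : ℕ → ℕ × Bool) (n : ℕ) : ℝ :=
  ∑ j ∈ Finset.range n, if tau x j < n ∧ n ≤ tau x (j + 1) ∧ (x j).2 = true then 1 else 0

/-- the copolymer partition function `Z_{N,ω,λ,h}` -/
noncomputable def Z (κ : PMF ℕ) (lam h : ℝ) (N : ℕ) (ω : ℕ → ℝ) : ℝ :=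
  ∫ x, Real.exp (-2 * lam * ∑ n ∈ Finset.Icc 1 N, Delta x n * (ω n + h)) ∂(pathMeasure κ)

/-- i.i.d. disorder with law `ν` (the coordinates `1, 2, ...` are used) -/
noncomputable def disorder (ν : Measure ℝ) [IsProbabilityMeasure ν] : Measure (ℕ → ℝ) :=
  Measure.infinitePi (fun _ : ℕ => ν)

instance instDisorder (ν : Measure ℝ) [IsProbabilityMeasure ν] :
    IsProbabilityMeasure (disorder ν) := by
  unfold disorder; infer_instance

/-- `N⁻¹ E log Z_N` -/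
noncomputable def feN (κ : PMF ℕ) (ν : Measure ℝ) [IsProbabilityMeasure ν] (lam h : ℝ) (N : ℕ) : ℝ :=
  (N : ℝ)⁻¹ * ∫ ω, Real.log (Z κ lam h N ω) ∂(disorder ν)

/-- the free energy `f(λ,h)` -/
noncomputable def freeEnergy (κ : PMF ℕ) (ν : Measure ℝ) [IsProbabilityMeasure ν] (lam h : ℝ) : ℝ :=
  limUnder atTop (feN κ ν lam h)

/-- the critical curve `h_c(λ) = sup {h ≥ 0 : f(λ,h) > 0}` -/
noncomputable def hc (κ : PMF ℕ) (ν : Measure ℝ) [IsProbabilityMeasure ν] (lam : ℝ) : ℝ :=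
  sSup {h : ℝ | 0 ≤ h ∧ 0 < freeEnergy κ ν lam h}

/-- Gaussian mean of the power `1/(1+α)` of `(1+e^g)/2` for `g` with mean `-2ky`, variance `4y` -/
noncomputable def gaussMean (α k y : ℝ) : ℝ :=
  ∫ z, ((1 + Real.exp (-2 * k * y + 2 * √y * z)) / 2) ^ (1 + α)⁻¹ ∂(gaussianReal 0 1)

/-- the integral criterion -/
noncomputable def crit (α k : ℝ) : ℝ :=
  ∫ y in Set.Ioi (0 : ℝ), y ^ (-(1 + α)) * (gaussMean α k y ^ (1 + α) - 1)

/-- the level of the integral criterion -/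
noncomputable def Kstar (α : ℝ) : ℝ := sSup {k : ℝ | (1 + α)⁻¹ ≤ k ∧ 0 ≤ crit α k}

/-- constant of the closed form bound -/
noncomputable def Rc (α : ℝ) : ℝ := (2 - 2 ^ (1 + α)⁻¹) ^ (-α⁻¹)

/-- **Strict improvement of the lower bound, every `α ∈ (0,1)`.**  With `K*` the largest level
`k ≥ 1/(1+α)` at which the (absolutely convergent) integral criterion is nonnegative, there is
`m > K*` with `h_c(λ)/λ ≥ m` for all small `λ > 0`; moreover
`K* ≥ (1/(1+α)) (1 + 1/(4R-2)) > 1/(1+α)` with `R = (2 - 2^{1/(1+α)})^{-1/α}`. -/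
theorem result (κ : PMF ℕ) (hκ0 : κ 0 = 0) (α cK : ℝ) (hα : 0 < α) (hcK : 0 < cK)
    (htail : Tendsto (fun n : ℕ => (n : ℝ) ^ (1 + α) * (κ n).toReal) atTop (𝓝 cK))
    (ν : Measure ℝ) [IsProbabilityMeasure ν]
    (hmean : ∫ x, x ∂ν = 0) (hvar : ∫ x, x ^ 2 ∂ν = 1)
    (hexp : ∀ t : ℝ, Integrable (fun x => Real.exp (t * x)) ν) :
    α < 1 →
    (∀ lam, 0 < lam →
      (∀ h, 0 ≤ h → Tendsto (feN κ ν lam h) atTop (𝓝 (freeEnergy κ ν lam h))) ∧
      0 < hc κ ν lam ∧ ∀ h, 0 ≤ h → (0 < freeEnergy κ ν lam h ↔ h < hc κ ν lam)) ∧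
    (∀ k, (1 + α)⁻¹ ≤ k → IntegrableOn
      (fun y => y ^ (-(1 + α)) * (gaussMean α k y ^ (1 + α) - 1)) (Set.Ioi 0)) ∧
    (0 ≤ crit α (Kstar α) ∧ ∀ k, (1 + α)⁻¹ ≤ k → 0 ≤ crit α k → k ≤ Kstar α) ∧
    (1 + α)⁻¹ < (1 + α)⁻¹ * (1 + 1 / (4 * Rc α - 2)) ∧
    (1 + α)⁻¹ * (1 + 1 / (4 * Rc α - 2)) ≤ Kstar α ∧
    ∃ m : ℝ, Kstar α < m ∧ ∀ᶠ lam in 𝓝[>] (0 : ℝ), m ≤ hc κ ν lam / lam := by
  intro hα1
  have hsan : ∀ lam, 0 < lam →
      (∀ h, 0 ≤ h → Tendsto (feN κ ν lam h) atTop (𝓝 (freeEnergy κ ν lam h))) ∧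
      0 < hc κ ν lam ∧ ∀ h, 0 ≤ h → (0 < freeEnergy κ ν lam h ↔ h < hc κ ν lam) := by
    intro lam hlam
    have h1 := fun h hh => (Cop764.M_fe.J_fe
      ⟨κ, hκ0, α, cK, hα, hcK, htail, ν, inferInstance, hmean, hvar, hexp, lam, hlam⟩ h hh).1
    have h2 := Pool.Agent.TH983.hcr_char
      ⟨κ, hκ0, α, cK, hα, hcK, htail, ν, inferInstance, hmean, hvar, hexp, lam, hlam⟩
    exact ⟨h1, h2.1, h2.2⟩
  have hS := Pool.Agent.TH983.SJ_sup hα hα1
  refine ⟨hsan, fun k hk => Pool.Agent.TH983.Jf_int hα hα1 hk, ⟨hS.1.2, fun k h1 h2 => ?_⟩,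
    Pool.Agent.TH983.kx_gt hα, hS.2.1, Pool.Agent.TH983.slope_lt_one
      ⟨κ, hκ0, α, cK, hα, hcK, htail, ν, inferInstance, hmean, hvar, hexp, 1, one_pos⟩ hα1⟩
  exact le_csSup ⟨1, fun k hk => Pool.Agent.TH983.SJ_bdd hα hα1 k hk⟩ ⟨h1, h2⟩

end Pool.Agent.Results.MP_3d9a2b_pr.AboveIntegralLevel
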